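import Pool.Agent.N463.HW.Stm

set_option autoImplicit false

/-!
Project HW (helper463), part NC (helper368): `Re g` is not constant.
-/

namespace Pool.Agent.N368.HW

open MeasureTheory Real Pool.Agent.N463.HW

theorem int_cos {n : ℤ} (hn : n ≠ 0) : ∫ τ in (0 : ℝ)..2 * π, Real.cos (n * τ) = 0 := by
  have hn' : (n : ℝ) ≠ 0 := by exact_mod_cast hn
  rw [intervalIntegral.integral_comp_mul_left (fun y => Real.cos y) hn', integral_cos]
  have h1 : Real.sin ((n : ℝ) * (2 * π)) = 0 := by
    have : (n : ℝ) * (2 * π) = ((2 * n : ℤ) : ℝ) * π := by push_cast; ring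
    rw [this]
    exact Real.sin_int_mul_pi _
  rw [h1]
  simp

theorem int_cc (k : ℕ) : ∫ τ in (0 : ℝ)..2 * π, Real.cos (k * τ) * Real.cos τ =
    if k = 1 then π else 0 := by
  have h1 : ∀ τ : ℝ, Real.cos (k * τ) * Real.cos τ =
      (Real.cos (((k + 1 : ℤ) : ℝ) * τ) + Real.cos (((k - 1 : ℤ) : ℝ) * τ)) / 2 := by
    intro τ
    have e1 : ((k + 1 : ℤ) : ℝ) * τ = k * τ + τ := by push_cast; ring
    have e2 : ((k - 1 : ℤ) : ℝ) * τ = k * τ - τ := by push_cast; ring
    rw [e1, e2, Real.cos_add, Real.cos_sub]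
    ring
  simp only [h1]
  have c1 : ∀ n : ℤ, IntervalIntegrable (fun τ : ℝ => Real.cos (n * τ)) volume 0 (2 * π) :=
    fun n => (by fun_prop : Continuous fun τ : ℝ => Real.cos (n * τ)).intervalIntegrable _ _
  rw [intervalIntegral.integral_div, intervalIntegral.integral_add (c1 _) (c1 _),
    int_cos (by omega)]
  by_cases hk : k = 1
  · subst hk
    norm_num
  · rw [int_cos (by omega), if_neg hk]
    simp

theorem t_NC : S_NC := by
  intro x hx0 hx hx1
  by_contra hcon
  push Not at hcon
  set c : ℝ := (gs x 0).re with hc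
  have hall : ∀ τ, (gs x τ).re = c := fun τ => hcon τ 0
  have hb : ∀ k : ℕ, |x k / k| ≤ |x k| := by
    intro k
    rcases Nat.eq_zero_or_pos k with rfl | hk
    · simp
    · have : (1 : ℝ) ≤ k := by exact_mod_cast hk
      rw [abs_div, Nat.abs_cast]
      exact div_le_self (abs_nonneg _) this
  have hexp : ∀ (k : ℕ) (τ : ℝ), Complex.exp (k * τ * Complex.I) =
      (Real.cos (k * τ) : ℂ) + (Real.sin (k * τ) : ℂ) * Complex.I := by
    intro k τ
    rw [Complex.exp_mul_I]
    push_cast
    rfl
  have hsum : ∀ τ : ℝ, HasSum (fun k : ℕ => (x k / k) * Real.cos (k * τ) * Real.cos τ)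
      ((gs x τ).re * Real.cos τ) := by
    intro τ
    have h1 : Summable (fun k : ℕ => ((x k / k : ℝ) : ℂ) * Complex.exp (k * τ * Complex.I)) := by
      refine Summable.of_norm_bounded hx fun k => ?_
      have e1 : ‖Complex.exp (k * τ * Complex.I)‖ = 1 := by
        have : (k * τ * Complex.I : ℂ) = ((k * τ : ℝ) : ℂ) * Complex.I := by push_cast; ring
        rw [this, Complex.norm_exp_ofReal_mul_I]
      rw [norm_mul, e1, mul_one, Complex.norm_real, Real.norm_eq_abs]
      exact hb k
    have h2 := (Complex.hasSum_re h1.hasSum).mul_right (Real.cos τ)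
    have h3 : ∀ k : ℕ, (((x k / k : ℝ) : ℂ) * Complex.exp (k * τ * Complex.I)).re * Real.cos τ =
        (x k / k) * Real.cos (k * τ) * Real.cos τ := by
      intro k
      rw [hexp, Complex.re_ofReal_mul]
      congr 2
      rw [Complex.add_re, Complex.ofReal_re, Complex.re_ofReal_mul, Complex.I_re, mul_zero, add_zero]
    simp only [h3] at h2
    exact h2
  have h3 : HasSum (fun k : ℕ => ∫ τ in (0 : ℝ)..2 * π, (x k / k) * Real.cos (k * τ) * Real.cos τ)
      (∫ τ in (0 : ℝ)..2 * π, (gs x τ).re * Real.cos τ) := by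
    refine intervalIntegral.hasSum_integral_of_dominated_convergence (fun k _ => |x k|) ?_ ?_ ?_ ?_ ?_
    · intro k
      exact (by fun_prop : Continuous fun τ : ℝ => (x k / k) * Real.cos (k * τ) * Real.cos τ).aestronglyMeasurable
    · intro k
      filter_upwards with τ _
      rw [norm_mul, norm_mul, Real.norm_eq_abs, Real.norm_eq_abs, Real.norm_eq_abs]
      calc |x k / k| * |Real.cos (k * τ)| * |Real.cos τ| ≤ |x k| * 1 * 1 := by
            refine mul_le_mul (mul_le_mul (hb k) (Real.abs_cos_le_one _) (abs_nonneg _) (abs_nonneg _))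
              (Real.abs_cos_le_one _) (abs_nonneg _) (by positivity)
        _ = |x k| := by ring
    · filter_upwards with τ _
      exact hx
    · exact intervalIntegrable_const
    · filter_upwards with τ _
      exact hsum τ
  have h4 : ∀ k : ℕ, ∫ τ in (0 : ℝ)..2 * π, (x k / k) * Real.cos (k * τ) * Real.cos τ =
      if k = 1 then x 1 * π else 0 := by
    intro k
    have e1 : ∀ τ : ℝ, (x k / k) * Real.cos (k * τ) * Real.cos τ =
        (x k / k) * (Real.cos (k * τ) * Real.cos τ) := fun τ => by ring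
    simp only [e1]
    rw [intervalIntegral.integral_const_mul, int_cc]
    by_cases hk : k = 1
    · subst hk
      simp
    · simp [hk]
  simp only [h4, hall] at h3
  have h5 : HasSum (fun k : ℕ => if k = 1 then x 1 * π else 0) (x 1 * π) := by
    have := hasSum_ite_eq (1 : ℕ) (x 1 * π)
    exact this
  have h6 := h3.unique h5
  rw [intervalIntegral.integral_const_mul, integral_cos, Real.sin_two_pi, Real.sin_zero, sub_zero,
    mul_zero] at h6
  exact mul_ne_zero hx1 Real.pi_ne_zero h6.symm

end Pool.Agent.N368.HW
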